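import Mathlib

set_option autoImplicit false

open Set

namespace Pool.Agent.Results.MP_17359d_gt.ClosedImages

/-- A space is delta-theta-refinable (submetalindelof) if every open cover has a sequence of open
covers refining it such that every point lies in at most countably many members of one of them. -/
def DeltaThetaRefinable (X : Type) [TopologicalSpace X] : Prop :=
  ∀ 𝒰 : Set (Set X), (∀ u ∈ 𝒰, IsOpen u) → ⋃₀ 𝒰 = Set.univ →
    ∃ 𝒱 : ℕ → Set (Set X),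
      (∀ n, (∀ v ∈ 𝒱 n, IsOpen v) ∧ ⋃₀ 𝒱 n = Set.univ ∧ ∀ v ∈ 𝒱 n, ∃ u ∈ 𝒰, v ⊆ u) ∧
      ∀ x, ∃ n, {v | v ∈ 𝒱 n ∧ x ∈ v}.Countable

variable {X Y : Type} [TopologicalSpace X] [TopologicalSpace Y]

/-- The points whose fibre is contained in `S`. -/
def star (f : X → Y) (S : Set X) : Set Y := {y | f ⁻¹' {y} ⊆ S}

theorem isOpen_star {f : X → Y} (hc : IsClosedMap f) {S : Set X} (hS : IsOpen S) :
    IsOpen (star f S) := by
  have : star f S = (f '' Sᶜ)ᶜ := by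
    ext y
    simp only [star, mem_compl_iff, mem_image, not_exists, not_and]
    constructor
    · intro h x hx hxy
      exact hx (h hxy)
    · intro h x hx
      by_contra hxS
      exact h x hxS hx
  rw [this]
  exact (hc _ hS.isClosed_compl).isOpen_compl

/-- Precise refinements of indexed covers. -/
theorem precise {ι : Type} (hX : DeltaThetaRefinable X) (A : ι → Set X)
    (hA : ∀ i, IsOpen (A i)) (hcov : ∀ x, ∃ i, x ∈ A i) :
    ∃ V : ℕ → ι → Set X, (∀ n i, IsOpen (V n i)) ∧ (∀ n i, V n i ⊆ A i) ∧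
      (∀ n x, ∃ i, x ∈ V n i) ∧ ∀ x, ∃ n, {i | x ∈ V n i}.Countable := by
  classical
  obtain ⟨𝒱, h1, h2⟩ := hX (range A) (by rintro _ ⟨i, rfl⟩; exact hA i) (by
    rw [eq_univ_iff_forall]
    intro x
    obtain ⟨i, hi⟩ := hcov x
    exact ⟨A i, ⟨i, rfl⟩, hi⟩)
  rcases isEmpty_or_nonempty ι with hι | ⟨⟨i₀⟩⟩
  · refine ⟨fun _ i => A i, fun _ i => hA i, fun _ i => subset_rfl, fun _ x => hcov x,
      fun x => ⟨0, ?_⟩⟩
    obtain ⟨i, -⟩ := hcov x
    exact (hι.false i).elim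
  have hch : ∀ (n : ℕ) (v : Set X), ∃ i, v ∈ 𝒱 n → v ⊆ A i := by
    intro n v
    by_cases hv : v ∈ 𝒱 n
    · obtain ⟨_, ⟨i, rfl⟩, h⟩ := (h1 n).2.2 v hv
      exact ⟨i, fun _ => h⟩
    · exact ⟨i₀, fun h => absurd h hv⟩
  choose r hr using hch
  refine ⟨fun n i => ⋃₀ {v | v ∈ 𝒱 n ∧ r n v = i}, ?_, ?_, ?_, ?_⟩
  · intro n i
    exact isOpen_sUnion fun v hv => (h1 n).1 v hv.1
  · rintro n i x ⟨v, ⟨hv, rfl⟩, hx⟩
    exact hr n v hv hx
  · intro n x
    have hx : x ∈ ⋃₀ 𝒱 n := by rw [(h1 n).2.1]; trivial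
    obtain ⟨v, hv, hxv⟩ := hx
    exact ⟨r n v, v, ⟨hv, rfl⟩, hxv⟩
  · intro x
    obtain ⟨n, hn⟩ := h2 x
    refine ⟨n, (hn.image (r n)).mono ?_⟩
    rintro i ⟨v, ⟨hv, rfl⟩, hx⟩
    exact ⟨v, ⟨hv, hx⟩, rfl⟩

/-- From indexed families back to the definition. -/
theorem of_families {ι : Type} (𝒰 : Set (Set Y)) (W : ℕ → ι → Set Y)
    (hW : ∀ n i, IsOpen (W n i)) (href : ∀ n i, (W n i).Nonempty → ∃ u ∈ 𝒰, W n i ⊆ u)
    (hcov : ∀ n y, ∃ i, y ∈ W n i) (hct : ∀ y, ∃ n, {i | y ∈ W n i}.Countable) :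
    ∃ 𝒱 : ℕ → Set (Set Y),
      (∀ n, (∀ v ∈ 𝒱 n, IsOpen v) ∧ ⋃₀ 𝒱 n = Set.univ ∧ ∀ v ∈ 𝒱 n, ∃ u ∈ 𝒰, v ⊆ u) ∧
      ∀ x, ∃ n, {v | v ∈ 𝒱 n ∧ x ∈ v}.Countable := by
  refine ⟨fun n => {v | v.Nonempty ∧ ∃ i, W n i = v}, fun n => ⟨?_, ?_, ?_⟩, ?_⟩
  · rintro _ ⟨-, i, rfl⟩
    exact hW n i
  · rw [eq_univ_iff_forall]
    intro y
    obtain ⟨i, hi⟩ := hcov n y
    exact ⟨W n i, ⟨⟨y, hi⟩, i, rfl⟩, hi⟩
  · rintro _ ⟨h, i, rfl⟩
    exact href n i h
  · intro y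
    obtain ⟨n, hn⟩ := hct y
    refine ⟨n, (hn.image (W n)).mono ?_⟩
    rintro v ⟨⟨-, i, rfl⟩, hy⟩
    exact ⟨i, hy, rfl⟩

/-- Covers indexed by a well-order all of whose initial segments are countable. -/
theorem segment_case {Ω : Type} [LinearOrder Ω] [WellFoundedLT Ω] (hΩ : ∀ i : Ω, (Iic i).Countable)
    (hX : DeltaThetaRefinable X) {f : X → Y} (hf : Continuous f) (hc : IsClosedMap f)
    (hs : Function.Surjective f) (𝒰 : Set (Set Y)) (U : Ω → Set Y) (hU : ∀ i, IsOpen (U i))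
    (hU2 : ∀ i, U i ∈ 𝒰) (hcov : ∀ y, ∃ i, y ∈ U i) :
    ∃ 𝒱 : ℕ → Set (Set Y),
      (∀ n, (∀ v ∈ 𝒱 n, IsOpen v) ∧ ⋃₀ 𝒱 n = Set.univ ∧ ∀ v ∈ 𝒱 n, ∃ u ∈ 𝒰, v ⊆ u) ∧
      ∀ x, ∃ n, {v | v ∈ 𝒱 n ∧ x ∈ v}.Countable := by
  obtain ⟨V, h1, h2, h3, h4⟩ := precise hX (fun i => f ⁻¹' (U i)) (fun i => (hU i).preimage hf)
    (fun x => hcov (f x))
  refine of_families 𝒰 (fun n i => U i ∩ star f (⋃ j ∈ {j | i ≤ j}, V n j)) ?_ ?_ ?_ ?_
  · intro n i
    exact (hU i).inter (isOpen_star hc (isOpen_biUnion fun j _ => h1 n j))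
  · intro n i _
    exact ⟨U i, hU2 i, inter_subset_left⟩
  · intro n y
    obtain ⟨x, rfl⟩ := hs y
    have hne : {i : Ω | ∃ x', f x' = f x ∧ x' ∈ V n i}.Nonempty := by
      obtain ⟨i, hi⟩ := h3 n x
      exact ⟨i, x, rfl, hi⟩
    obtain ⟨i, ⟨x', hx', hi⟩, hmin⟩ := WellFounded.has_min
      (wellFounded_lt : WellFounded ((· < ·) : Ω → Ω → Prop)) _ hne
    refine ⟨i, ?_, ?_⟩
    · rw [← hx']
      exact h2 n i hi
    · intro z hz
      obtain ⟨j, hj⟩ := h3 n z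
      exact mem_iUnion₂.2 ⟨j, not_lt.1 (hmin j ⟨z, hz, hj⟩), hj⟩
  · intro y
    obtain ⟨x, rfl⟩ := hs y
    obtain ⟨n, hn⟩ := h4 x
    refine ⟨n, ?_⟩
    refine (hn.biUnion fun j _ => hΩ j).mono ?_
    rintro i ⟨-, hi⟩
    obtain ⟨j, hj, hxj⟩ := mem_iUnion₂.1 (hi rfl)
    exact mem_iUnion₂.2 ⟨j, hxj, hj⟩

/-- The families at stage `k`: every set of at most `k` points of a fibre lies in one member. -/
structure Stage (f : X → Y) (𝒰 : Set (Set Y)) (k : ℕ) where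
  G : ℕ → 𝒰 → Set X
  openG : ∀ m i, IsOpen (G m i)
  subG : ∀ m i, ∀ x ∈ G m i, f x ∈ (i : Set Y)
  claim : ∀ m, ∀ y : Y, ∀ s : Finset X, (∀ x ∈ s, f x = y) → s.card ≤ k →
    ∃ i : 𝒰, y ∈ (i : Set Y) ∧ ∀ x ∈ s, x ∈ G m i
  ctbl : ∀ x, ∃ m, {i | x ∈ G m i}.Countable

theorem next (hX : DeltaThetaRefinable X) {f : X → Y} (hf : Continuous f) (hc : IsClosedMap f)
    (hfin : ∀ y : Y, (f ⁻¹' {y}).Finite) {𝒰 : Set (Set Y)}
    (h𝒰 : ∀ u ∈ 𝒰, IsOpen u) {k : ℕ} (S : Stage f 𝒰 k) : Nonempty (Stage f 𝒰 (k + 1)) := by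
  classical
  let F : Y → Finset X := fun y => (hfin y).toFinset
  have hF : ∀ y x, x ∈ F y ↔ f x = y := by
    intro y x
    simp [F]
  have hch : ∀ (m : ℕ) (y : Y) (s : Finset X), ∃ i : 𝒰, ((∀ x ∈ s, f x = y) → s.card ≤ k →
      y ∈ (i : Set Y) ∧ ∀ x ∈ s, x ∈ S.G m i) := by
    intro m y s
    by_cases h : (∀ x ∈ s, f x = y) ∧ s.card ≤ k
    · obtain ⟨i, hi⟩ := S.claim m y s h.1 h.2
      exact ⟨i, fun _ _ => hi⟩
    · obtain ⟨i, -⟩ := S.claim m y ∅ (by simp) (by simp)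
      exact ⟨i, fun h1 h2 => absurd ⟨h1, h2⟩ h⟩
  choose c hcc using hch
  let I : ℕ → Y → Finset 𝒰 := fun m y =>
    ((F y).powerset.filter fun s => s.card ≤ k).image (c m y)
  have hI : ∀ m y, ∀ i ∈ I m y, y ∈ (i : Set Y) := by
    intro m y i hi
    simp only [I, Finset.mem_image, Finset.mem_filter, Finset.mem_powerset] at hi
    obtain ⟨s, ⟨hs, hcard⟩, rfl⟩ := hi
    exact (hcc m y s (fun x hx => (hF y x).1 (hs hx)) hcard).1
  -- the small neighbourhood of `w`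
  let N : ℕ → Y → X → Set X := fun m y w => ⋂ i ∈ (I m y).filter (fun i => w ∈ S.G m i), S.G m i
  have hNo : ∀ m y w, IsOpen (N m y w) := fun m y w =>
    isOpen_biInter_finset fun i _ => S.openG m i
  have hwN : ∀ m y w, w ∈ N m y w := by
    intro m y w
    refine mem_iInter₂.2 fun i hi => ?_
    exact (Finset.mem_filter.1 hi).2
  let M : ℕ → Y → Set Y := fun m y => star f (⋃ w ∈ F y, N m y w)
  have hMo : ∀ m y, IsOpen (M m y) := fun m y =>
    isOpen_star hc (isOpen_biUnion fun w _ => hNo m y w)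
  have hyM : ∀ m y, y ∈ M m y := by
    intro m y x hx
    exact mem_iUnion₂.2 ⟨x, (hF y x).2 hx, hwN m y x⟩
  let A : ℕ → Y → Set X := fun m y => f ⁻¹' (M m y) ∩ ⋂ i ∈ I m y, f ⁻¹' (i : Set Y)
  have hAo : ∀ m y, IsOpen (A m y) := by
    intro m y
    refine ((hMo m y).preimage hf).inter ?_
    exact isOpen_biInter_finset fun i _ => (h𝒰 i i.2).preimage hf
  have hxA : ∀ m x, x ∈ A m (f x) := by
    intro m x
    exact ⟨hyM m _, mem_iInter₂.2 fun i hi => hI m _ i hi⟩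
  have hpr : ∀ m, ∃ V : ℕ → Y → Set X, (∀ n i, IsOpen (V n i)) ∧ (∀ n i, V n i ⊆ A m i) ∧
      (∀ n x, ∃ i, x ∈ V n i) ∧ ∀ x, ∃ n, {i | x ∈ V n i}.Countable := fun m =>
    precise hX (A m) (hAo m) (fun x => ⟨f x, hxA m x⟩)
  choose V v1 v2 v3 v4 using hpr
  refine ⟨
    { G := fun p i => S.G p.unpair.1 i ∪
        ⋃ y ∈ {y | i ∈ I p.unpair.1 y}, V p.unpair.1 p.unpair.2 y
      openG := ?_
      subG := ?_
      claim := ?_
      ctbl := ?_ }⟩
  · intro p i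
    exact (S.openG _ i).union (isOpen_biUnion fun y _ => v1 _ _ y)
  · rintro p i x (hx | hx)
    · exact S.subG _ i x hx
    · obtain ⟨y, hy, hx2⟩ := mem_iUnion₂.1 hx
      have h5 : x ∈ A p.unpair.1 y := v2 _ _ y hx2
      exact mem_iInter₂.1 h5.2 i hy
  · intro p y s hsy hcard
    rcases s.eq_empty_or_nonempty with rfl | ⟨x₀, hx₀⟩
    · obtain ⟨i, hi, -⟩ := S.claim p.unpair.1 y ∅ (by simp) (by simp)
      exact ⟨i, hi, by simp⟩
    · obtain ⟨z, hz⟩ := v3 p.unpair.1 p.unpair.2 x₀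
      have h5 : x₀ ∈ A p.unpair.1 z := v2 _ _ z hz
      have h6 : y ∈ M p.unpair.1 z := by
        have := h5.1
        rwa [mem_preimage, hsy x₀ hx₀] at this
      have h7 : ∀ x : X, ∃ w : X, f x = y → (w ∈ F z ∧ x ∈ N p.unpair.1 z w) := by
        intro x
        by_cases hx : f x = y
        · obtain ⟨w, hw, hxw⟩ := mem_iUnion₂.1 (h6 (show x ∈ f ⁻¹' {y} from hx))
          exact ⟨w, fun _ => ⟨hw, hxw⟩⟩
        · exact ⟨x, fun h => absurd h hx⟩
      choose w hw using h7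
      let t : Finset X := (s.erase x₀).image w
      have ht1 : t ⊆ F z := by
        intro a ha
        simp only [t, Finset.mem_image] at ha
        obtain ⟨x, hx, rfl⟩ := ha
        exact (hw x (hsy x (Finset.mem_of_mem_erase hx))).1
      have ht2 : t.card ≤ k := by
        refine Finset.card_image_le.trans ?_
        rw [Finset.card_erase_of_mem hx₀]
        omega
      have ht3 := hcc p.unpair.1 z t (fun x hx => (hF _ x).1 (ht1 hx)) ht2
      have hiI : c p.unpair.1 z t ∈ I p.unpair.1 z := by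
        simp only [I, Finset.mem_image, Finset.mem_filter, Finset.mem_powerset]
        exact ⟨t, ⟨ht1, ht2⟩, rfl⟩
      refine ⟨c p.unpair.1 z t, ?_, ?_⟩
      · have := mem_iInter₂.1 h5.2 _ hiI
        rwa [mem_preimage, hsy x₀ hx₀] at this
      · intro x hx
        by_cases hxx : x = x₀
        · subst hxx
          right
          exact mem_iUnion₂.2 ⟨z, hiI, hz⟩
        · left
          have h8 := hw x (hsy x hx)
          have h9 : w x ∈ t := Finset.mem_image_of_mem w (Finset.mem_erase.2 ⟨hxx, hx⟩)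
          exact mem_iInter₂.1 h8.2 _ (Finset.mem_filter.2 ⟨hiI, ht3.2 (w x) h9⟩)
  · intro x
    obtain ⟨m, hm⟩ := S.ctbl x
    obtain ⟨n, hn⟩ := v4 m x
    refine ⟨Nat.pair m n, ?_⟩
    simp only [Nat.unpair_pair]
    refine (hm.union (hn.biUnion fun y _ => (I m y).countable_toSet)).mono ?_
    rintro i (hi | hi)
    · exact Or.inl hi
    · obtain ⟨y, hy, hx⟩ := mem_iUnion₂.1 hi
      exact Or.inr (mem_iUnion₂.2 ⟨y, hx, hy⟩)

omit [TopologicalSpace Y] in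
theorem start {f : X → Y} {𝒰 : Set (Set Y)} (hcov : ⋃₀ 𝒰 = Set.univ) :
    Nonempty (Stage f 𝒰 0) := by
  refine ⟨⟨fun _ _ => ∅, fun _ _ => isOpen_empty, fun _ _ _ h => absurd h (notMem_empty _),
    ?_, fun x => ⟨0, by simp⟩⟩⟩
  intro m y s _ hs
  have : s = ∅ := by simpa using hs
  subst this
  have hy : y ∈ ⋃₀ 𝒰 := by rw [hcov]; trivial
  obtain ⟨u, hu, hyu⟩ := hy
  exact ⟨⟨u, hu⟩, hyu, by simp⟩

theorem stage (hX : DeltaThetaRefinable X) {f : X → Y} (hf : Continuous f) (hc : IsClosedMap f)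
    (hfin : ∀ y : Y, (f ⁻¹' {y}).Finite) {𝒰 : Set (Set Y)}
    (h𝒰 : ∀ u ∈ 𝒰, IsOpen u) (hcov : ⋃₀ 𝒰 = Set.univ) (k : ℕ) : Nonempty (Stage f 𝒰 k) := by
  induction k with
  | zero => exact start hcov
  | succ k ih =>
    obtain ⟨S⟩ := ih
    exact next hX hf hc hfin h𝒰 S

/-- Let `X` be delta-theta-refinable and `f : X → Y` a continuous closed surjection. If every open
cover of `Y` has a subcover of cardinality at most `ℵ₁`, or if the fibres of `f` are finite of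
bounded size, then `Y` is delta-theta-refinable. No separation axiom is assumed. -/
theorem result (X Y : Type) [TopologicalSpace X] [TopologicalSpace Y] (f : X → Y)
    (hf : Continuous f) (hc : IsClosedMap f) (hs : Function.Surjective f)
    (hX : DeltaThetaRefinable X)
    (h : (∀ 𝒰 : Set (Set Y), (∀ u ∈ 𝒰, IsOpen u) → ⋃₀ 𝒰 = Set.univ →
        ∃ 𝒲 ⊆ 𝒰, ⋃₀ 𝒲 = Set.univ ∧ Cardinal.mk 𝒲 ≤ Cardinal.aleph 1) ∨
      (∃ k : ℕ, ∀ y : Y, (f ⁻¹' {y}).Finite ∧ (f ⁻¹' {y}).ncard ≤ k)) :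
    DeltaThetaRefinable Y := by
  classical
  intro 𝒰 h𝒰 hcov
  rcases h with h | ⟨k, hk⟩
  · obtain ⟨𝒲, hW, hWc, hWcard⟩ := h 𝒰 h𝒰 hcov
    rcases isEmpty_or_nonempty 𝒲 with he | hne
    · -- then `Y` is empty
      have hY : IsEmpty Y := by
        refine ⟨fun y => ?_⟩
        have hy : y ∈ ⋃₀ 𝒲 := by rw [hWc]; trivial
        obtain ⟨w, hw, -⟩ := hy
        exact he.false ⟨w, hw⟩
      refine of_families (ι := ℕ) 𝒰 (fun _ _ => ∅) (fun _ _ => isOpen_empty)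
        (fun _ _ h => absurd h (by simp)) (fun _ y => (hY.false y).elim)
        (fun y => (hY.false y).elim)
    · let Ω : Type := (Cardinal.aleph 1).ord.ToType
      have hΩ1 : Cardinal.mk Ω = Cardinal.aleph 1 := by simp [Ω]
      have hΩ : ∀ a : Ω, (Iic a).Countable := by
        intro a
        have h1 : (Iio a).Countable := by
          rw [← Cardinal.le_aleph0_iff_set_countable]
          have h2 : Cardinal.mk (Iio a) < Cardinal.mk Ω := Cardinal.mk_Iio_lt a (by simp [Ω])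
          have h3 : Cardinal.mk Ω = Order.succ Cardinal.aleph0 := by
            rw [Cardinal.succ_aleph0]; exact hΩ1
          exact Order.lt_succ_iff.1 (h2.trans_le h3.le)
        refine (h1.union (countable_singleton a)).mono ?_
        intro b hb
        rcases lt_or_eq_of_le (show b ≤ a from hb) with h | h
        · exact Or.inl h
        · exact Or.inr h
      rw [← hΩ1] at hWcard
      obtain ⟨e⟩ := hWcard
      obtain ⟨g, hsurj⟩ : ∃ g : Ω → 𝒲, Function.Surjective g :=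
        ⟨Function.invFun e, Function.invFun_surjective e.injective⟩
      refine segment_case hΩ hX hf hc hs 𝒰 (fun i => (g i : Set Y)) ?_ ?_ ?_
      · intro i
        exact h𝒰 _ (hW (g i).2)
      · intro i
        exact hW (g i).2
      · intro y
        have hy : y ∈ ⋃₀ 𝒲 := by rw [hWc]; trivial
        obtain ⟨w, hw, hyw⟩ := hy
        obtain ⟨i, hi⟩ := hsurj ⟨w, hw⟩
        refine ⟨i, ?_⟩
        rw [hi]
        exact hyw
  · obtain ⟨S⟩ := stage hX hf hc (fun y => (hk y).1) h𝒰 hcov k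
    refine of_families 𝒰 (fun m i => star f (S.G m i)) ?_ ?_ ?_ ?_
    · intro m i
      exact isOpen_star hc (S.openG m i)
    · intro m i _
      refine ⟨i, i.2, ?_⟩
      intro y hy
      obtain ⟨x, rfl⟩ := hs y
      exact S.subG m i x (hy rfl)
    · intro m y
      obtain ⟨i, -, hi⟩ := S.claim m y (hk y).1.toFinset (by simp) (by
        rw [← Set.ncard_eq_toFinset_card _ (hk y).1]
        exact (hk y).2)
      exact ⟨i, fun x hx => hi x (by simpa using hx)⟩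
    · intro y
      obtain ⟨x, rfl⟩ := hs y
      obtain ⟨m, hm⟩ := S.ctbl x
      exact ⟨m, hm.mono fun i hi => hi rfl⟩

end Pool.Agent.Results.MP_17359d_gt.ClosedImages
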